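import Pool.Agent.Helper60.SB.Defs2

/-!
Averages over signs (MP_7fc85e_an, module B).
-/

open Finset

namespace Pool.Agent.Helper80.SB

open Pool.Agent.Helper60.SB

section basic

variable {ι K : Type*} [Fintype ι] [DecidableEq ι] [Field K] [CharZero K]

theorem two_pow_ne : (2 : K) ^ Fintype.card ι ≠ 0 := pow_ne_zero _ two_ne_zero

theorem av_add (f g : (ι → Bool) → K) : av (fun β => f β + g β) = av f + av g := by
  unfold av
  rw [sum_add_distrib, add_div]

theorem av_sub (f g : (ι → Bool) → K) : av (fun β => f β - g β) = av f - av g := by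
  unfold av
  rw [sum_sub_distrib, sub_div]

theorem av_const_mul (c : K) (f : (ι → Bool) → K) : av (fun β => c * f β) = c * av f := by
  unfold av
  rw [← mul_sum, mul_div_assoc]

theorem av_const (c : K) : av (fun _ : ι → Bool => c) = c := by
  unfold av
  rw [sum_const, card_univ, Fintype.card_fun, Fintype.card_bool, nsmul_eq_mul]
  push_cast
  field_simp

theorem av_equiv (e : (ι → Bool) ≃ (ι → Bool)) (f : (ι → Bool) → K) :
    av (fun β => f (e β)) = av f := by
  unfold av
  rw [Equiv.sum_comp e f]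

end basic

section blk

variable {ι I K : Type*} [Fintype ι] [DecidableEq ι] [Fintype I] [DecidableEq I] [Field K]
  [CharZero K] (blk : ι → I)

/-- Splitting a sign pattern into blocks. -/
def blkEquiv : (ι → Bool) ≃ ((i : I) → ({j // blk j = i} → Bool)) :=
  ((Equiv.sigmaFiberEquiv blk).symm.arrowCongr (Equiv.refl Bool)).trans
    (Equiv.piCurry (fun _ _ => Bool))

theorem blkEquiv_apply (β : ι → Bool) (i : I) (j : {j // blk j = i}) :
    blkEquiv blk β i j = β j.1 := rfl

theorem av_blk (g : (i : I) → ({j // blk j = i} → Bool) → K) :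
    av (fun β => ∏ i, g i (blkEquiv blk β i)) =
      ∏ i, ((∑ γ, g i γ) / 2 ^ Fintype.card {j // blk j = i}) := by
  unfold av
  rw [Equiv.sum_comp (blkEquiv blk) (fun p => ∏ i, g i (p i)), prod_div_distrib,
    prod_pow_eq_pow_sum]
  congr 1
  · rw [Finset.prod_univ_sum, Fintype.piFinset_univ]
  · congr 1
    rw [← Fintype.card_sigma, Fintype.card_congr (Equiv.sigmaFiberEquiv blk)]

theorem av_single (i₀ : I) (g : ({j // blk j = i₀} → Bool) → K) :
    av (fun β => g (blkEquiv blk β i₀)) = (∑ γ, g γ) / 2 ^ Fintype.card {j // blk j = i₀} := by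
  have h := av_blk (K := K) blk (fun i => if h : i = i₀ then (fun γ => g (h ▸ γ)) else
    (fun _ => 1))
  have h1 : ∀ β : ι → Bool, (∏ i, (if h : i = i₀ then (fun γ => g (h ▸ γ)) else
      (fun _ => 1) : ({j // blk j = i} → Bool) → K) (blkEquiv blk β i)) =
      g (blkEquiv blk β i₀) := by
    intro β
    rw [Finset.prod_eq_single i₀]
    · simp
    · intro i _ hi
      rw [dif_neg hi]
    · intro hi
      exact absurd (mem_univ _) hi
  rw [funext h1] at h
  rw [h, Finset.prod_eq_single i₀]
  · simp
  · intro i _ hi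
    rw [dif_neg hi, sum_const, card_univ, Fintype.card_fun, Fintype.card_bool, nsmul_eq_mul,
      mul_one]
    push_cast
    exact div_self two_pow_ne
  · intro hi
    exact absurd (mem_univ _) hi

/-- Independence over blocks of coordinates. -/
theorem av_prod_of_blk (f : I → (ι → Bool) → K)
    (hf : ∀ i β β', (∀ j, blk j = i → β j = β' j) → f i β = f i β') :
    av (fun β => ∏ i, f i β) = ∏ i, av (f i) := by
  set g : (i : I) → ({j // blk j = i} → Bool) → K := fun i γ =>
    f i (fun j => if h : blk j = i then γ ⟨j, h⟩ else false) with hg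
  have h1 : ∀ i β, f i β = g i (blkEquiv blk β i) := by
    intro i β
    rw [hg]
    refine hf i _ _ (fun j hj => ?_)
    simp only [dif_pos hj]
    rfl
  have h2 : (fun β => ∏ i, f i β) = fun β => ∏ i, g i (blkEquiv blk β i) := by
    funext β
    exact prod_congr rfl (fun i _ => h1 i β)
  rw [h2, av_blk]
  refine prod_congr rfl (fun i _ => ?_)
  rw [← av_single blk i (g i)]
  congr 1
  funext β
  exact (h1 i β).symm

end blk

section one

variable {ι K : Type*} [Fintype ι] [DecidableEq ι] [Field K] [CharZero K]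

/-- Change of one sign. -/
def flipE (j : ι) : (ι → Bool) ≃ (ι → Bool) :=
  Function.Involutive.toPerm (fun β => Function.update β j (!β j)) (by
    intro β
    simp)

theorem flipE_self (j : ι) (β : ι → Bool) : flipE j β j = !β j := by
  simp [flipE]

theorem flipE_ne {j i : ι} (h : i ≠ j) (β : ι → Bool) : flipE j β i = β i := by
  simp [flipE, h]

/-- The average over one sign of a product with a function that does not depend on it. -/
theorem av_coord_mul (j : ι) (h : Bool → K) (f : (ι → Bool) → K)
    (hf : ∀ β, f (flipE j β) = f β) :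
    av (fun β : ι → Bool => h (β j) * f β) = (h true + h false) / 2 * av f := by
  have h1 := av_equiv (flipE j) (fun β => h (β j) * f β)
  have h2 := av_add (fun β : ι → Bool => h (flipE j β j) * f (flipE j β))
    (fun β => h (β j) * f β)
  rw [h1] at h2
  have h3 : (fun β : ι → Bool => h (flipE j β j) * f (flipE j β) + h (β j) * f β) =
      fun β => (h true + h false) * f β := by
    funext β
    rw [hf, flipE_self]
    cases β j <;> simp <;> ring
  rw [h3, av_const_mul] at h2
  field_simp
  rw [h2]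
  ring

/-- The average of a function of one sign. -/
theorem av_coord (j : ι) (h : Bool → K) :
    av (fun β : ι → Bool => h (β j)) = (h true + h false) / 2 := by
  have h1 := av_coord_mul j h (fun _ => 1) (fun _ => rfl)
  rw [av_const, mul_one] at h1
  simpa using h1

theorem av_coord_two {j j' : ι} (hne : j ≠ j') (h h' : Bool → K) :
    av (fun β : ι → Bool => h (β j) * h' (β j')) =
      (h true + h false) / 2 * ((h' true + h' false) / 2) := by
  rw [av_coord_mul j h (fun β => h' (β j')) (fun β => by rw [flipE_ne hne.symm]), av_coord]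

end one

section cplx

variable {ι : Type*} [Fintype ι] [DecidableEq ι]

theorem av_im (f : (ι → Bool) → ℂ) : (av f).im = av (fun β => (f β).im) := by
  unfold av
  have : (2 : ℂ) ^ Fintype.card ι = ((2 ^ Fintype.card ι : ℝ) : ℂ) := by push_cast; rfl
  rw [this, Complex.div_ofReal_im, Complex.im_sum]

theorem av_re (f : (ι → Bool) → ℂ) : (av f).re = av (fun β => (f β).re) := by
  unfold av
  have : (2 : ℂ) ^ Fintype.card ι = ((2 ^ Fintype.card ι : ℝ) : ℂ) := by push_cast; rfl
  rw [this, Complex.div_ofReal_re, Complex.re_sum]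

end cplx

section B

variable {ι D T P : Type*} [Fintype ι] [DecidableEq ι] [Fintype D] [DecidableEq D] [Fintype T]
  [DecidableEq T]

variable (id : D → T → P → ι) (e0 : D → P → ℝ) (e1 : D → T → P → ℝ) (u : ℝ)

theorem av_sin (blk : ι → D × T) (hblk : ∀ i t x, blk (id i t x) = (i, t)) (i : D) (x : P) :
    av (fun β : ι → Bool => Real.sin (Gs id e1 β i x / u)) = 0 := by
  set e : (ι → Bool) ≃ (ι → Bool) := Function.Involutive.toPerm (fun β j => !β j) (by
    intro β
    funext j
    simp) with he
  have h1 := av_equiv e (fun β : ι → Bool => Real.sin (Gs id e1 β i x / u))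
  have h2 : ∀ β : ι → Bool, Real.sin (Gs id e1 (e β) i x / u) =
      0 - Real.sin (Gs id e1 β i x / u) := by
    intro β
    have h3 : Gs id e1 (e β) i x = - Gs id e1 β i x := by
      unfold Gs
      rw [← sum_neg_distrib]
      refine sum_congr rfl (fun t _ => ?_)
      have h4 : e β (id i t x) = !β (id i t x) := rfl
      rw [h4]
      cases β (id i t x) <;> simp
    rw [h3, neg_div, Real.sin_neg]
    ring
  rw [funext h2, av_sub, av_const] at h1
  linarith

/-- The exponential of the signed sum as a product over the shapes. -/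
theorem exp_Gs (β : ι → Bool) (i : D) (x : P) :
    Complex.exp (((Gs id e1 β i x / u : ℝ) : ℂ) * Complex.I) =
      ∏ t, Complex.exp (((sg (β (id i t x)) * e1 i t x / u : ℝ) : ℂ) * Complex.I) := by
  rw [← Complex.exp_sum, ← sum_mul]
  congr 2
  unfold Gs
  rw [sum_div]
  push_cast
  rfl

theorem exp_pm {e u : ℝ} (he : e = 1 ∨ e = -1) :
    (Complex.exp (((sg true * e / u : ℝ) : ℂ) * Complex.I) +
      Complex.exp (((sg false * e / u : ℝ) : ℂ) * Complex.I)) / 2 =
      ((Real.cos (1 / u) : ℝ) : ℂ) := by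
  rw [Complex.ofReal_cos, Complex.cos]
  rcases he with rfl | rfl
  · simp only [sg_true, sg_false]
    push_cast
    congr 3 <;> ring
  · simp only [sg_true, sg_false]
    push_cast
    rw [add_comm]
    congr 3 <;> ring

theorem exp_pm' {e u : ℝ} (he : e = 1 ∨ e = -1) :
    (((sg true : ℝ) : ℂ) * Complex.exp (((sg true * e / u : ℝ) : ℂ) * Complex.I) +
      ((sg false : ℝ) : ℂ) * Complex.exp (((sg false * e / u : ℝ) : ℂ) * Complex.I)) / 2 =
      ((e * Real.sin (1 / u) : ℝ) : ℂ) * Complex.I := by
  rw [Complex.ofReal_mul, Complex.ofReal_sin, Complex.sin]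
  rcases he with rfl | rfl
  · simp only [sg_true, sg_false]
    push_cast
    have h1 : (1 * 1 / (u : ℂ)) * Complex.I = (1 / (u : ℂ)) * Complex.I := by ring
    have h2 : (-1 * 1 / (u : ℂ)) * Complex.I = -(1 / (u : ℂ)) * Complex.I := by ring
    rw [h1, h2]
    have hI : Complex.I * Complex.I = -1 := Complex.I_mul_I
    linear_combination (-(Complex.exp (-(1 / (u : ℂ)) * Complex.I) -
      Complex.exp ((1 / (u : ℂ)) * Complex.I)) / 2) * hI
  · simp only [sg_true, sg_false]
    push_cast
    have h1 : (1 * -1 / (u : ℂ)) * Complex.I = -(1 / (u : ℂ)) * Complex.I := by ring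
    have h2 : (-1 * -1 / (u : ℂ)) * Complex.I = (1 / (u : ℂ)) * Complex.I := by ring
    rw [h1, h2]
    have hI : Complex.I * Complex.I = -1 := Complex.I_mul_I
    linear_combination ((Complex.exp (-(1 / (u : ℂ)) * Complex.I) -
      Complex.exp ((1 / (u : ℂ)) * Complex.I)) / 2) * hI

theorem av_sg_sin (blk : ι → D × T) (hblk : ∀ i t x, blk (id i t x) = (i, t))
    (he1 : ∀ i t x, e1 i t x = 1 ∨ e1 i t x = -1) (i : D) (t : T) (x : P) :
    av (fun β : ι → Bool => sg (β (id i t x)) * Real.sin (Gs id e1 β i x / u)) =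
      e1 i t x * (Real.sin (1 / u) * Real.cos (1 / u) ^ (Fintype.card T - 1)) := by
  set F : T → (ι → Bool) → ℂ := fun t' β =>
    (if t' = t then ((sg (β (id i t x)) : ℝ) : ℂ) else 1) *
      Complex.exp (((sg (β (id i t' x)) * e1 i t' x / u : ℝ) : ℂ) * Complex.I) with hF
  have h1 : ∀ β : ι → Bool, sg (β (id i t x)) * Real.sin (Gs id e1 β i x / u) =
      (∏ t', F t' β).im := by
    intro β
    rw [hF, prod_mul_distrib, Finset.prod_ite_eq' univ t, if_pos (mem_univ _),
      ← exp_Gs id e1 u β i x, Complex.im_ofReal_mul, Complex.exp_ofReal_mul_I_im]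
  have h2 : av (fun β => ∏ t', F t' β) = ∏ t', av (F t') := by
    refine av_prod_of_blk (fun j => (blk j).2) F ?_
    intro t' β β' h
    have h3 : β (id i t' x) = β' (id i t' x) := h _ (by rw [hblk])
    rw [hF]
    by_cases ht : t' = t
    · subst ht
      simp only [h3]
    · simp only [if_neg ht, h3]
  have h3 : ∀ t', av (F t') = if t' = t then ((e1 i t x * Real.sin (1 / u) : ℝ) : ℂ) * Complex.I
      else ((Real.cos (1 / u) : ℝ) : ℂ) := by
    intro t'
    rw [hF]
    by_cases ht : t' = t
    · subst ht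
      simp only [if_true]
      rw [av_coord (K := ℂ) (id i t' x) (fun b => ((sg b : ℝ) : ℂ) *
        Complex.exp (((sg b * e1 i t' x / u : ℝ) : ℂ) * Complex.I))]
      exact exp_pm' (he1 i t' x)
    · simp only [if_neg ht, one_mul]
      rw [av_coord (K := ℂ) (id i t' x) (fun b =>
        Complex.exp (((sg b * e1 i t' x / u : ℝ) : ℂ) * Complex.I))]
      exact exp_pm (he1 i t' x)
  rw [funext h1, ← av_im, h2, prod_congr rfl (fun t' _ => h3 t'), prod_ite, prod_const,
    prod_const]
  have h4 : (univ.filter (fun t' => t' = t)).card = 1 := by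
    rw [Finset.filter_eq' univ t, if_pos (mem_univ _), card_singleton]
  have h5 : (univ.filter (fun t' => ¬ t' = t)).card = Fintype.card T - 1 := by
    rw [filter_not, card_sdiff_of_subset (filter_subset _ _), h4, card_univ]
  rw [h4, h5, pow_one]
  have h6 : (((e1 i t x * Real.sin (1 / u) : ℝ) : ℂ) * Complex.I) *
      ((Real.cos (1 / u) : ℝ) : ℂ) ^ (Fintype.card T - 1) =
      ((e1 i t x * (Real.sin (1 / u) * Real.cos (1 / u) ^ (Fintype.card T - 1)) : ℝ) : ℂ) *
        Complex.I := by
    push_cast
    ring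
  rw [h6, Complex.im_ofReal_mul, Complex.I_im, mul_one]

theorem cos_mm {a b u : ℝ} (ha : a = 1 ∨ a = -1) (hb : b = 1 ∨ b = -1) :
    Real.cos (a / u - b / u) = mm u (a * b) := by
  rcases ha with rfl | rfl <;> rcases hb with rfl | rfl
  · unfold mm
    norm_num
  · have h : (1 : ℝ) / u - -1 / u = 2 / u := by ring
    rw [h]
    unfold mm
    norm_num
  · have h : (-1 : ℝ) / u - 1 / u = -(2 / u) := by ring
    rw [h, Real.cos_neg]
    unfold mm
    norm_num
  · unfold mm
    norm_num

/-- The average of the cosine of a signed sum over two points. -/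
theorem av_cos (blk : ι → D × T) (hblk : ∀ i t x, blk (id i t x) = (i, t))
    (he1 : ∀ i t x, e1 i t x = 1 ∨ e1 i t x = -1) (i : D) (x y : P) (σ : ℝ)
    (hσ : σ = 1 ∨ σ = -1) :
    av (fun β : ι → Bool => Real.cos (Gs id e1 β i x / u - σ * (Gs id e1 β i y / u))) =
      ∏ t, mm u (if id i t x = id i t y then σ * (e1 i t x * e1 i t y) else 0) := by
  set F : T → (ι → Bool) → ℂ := fun t β =>
    Complex.exp (((sg (β (id i t x)) * e1 i t x / u : ℝ) : ℂ) * Complex.I) *
      Complex.exp (((sg (β (id i t y)) * (-σ * e1 i t y) / u : ℝ) : ℂ) * Complex.I) with hF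
  have h1 : ∀ β : ι → Bool, Real.cos (Gs id e1 β i x / u - σ * (Gs id e1 β i y / u)) =
      (∏ t, F t β).re := by
    intro β
    rw [hF, prod_mul_distrib, ← exp_Gs id e1 u β i x]
    have h2 := exp_Gs id (fun i t x => -σ * e1 i t x) u β i y
    rw [← h2, ← Complex.exp_add, ← add_mul, ← Complex.ofReal_add, Complex.exp_ofReal_mul_I_re]
    congr 1
    have h3 : Gs id (fun i t x => -σ * e1 i t x) β i y = -σ * Gs id e1 β i y := by
      unfold Gs
      rw [mul_sum]
      refine sum_congr rfl (fun t _ => ?_)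
      ring
    rw [h3]
    ring
  have h2 : av (fun β => ∏ t, F t β) = ∏ t, av (F t) := by
    refine av_prod_of_blk (fun j => (blk j).2) F ?_
    intro t β β' h
    have h3 : β (id i t x) = β' (id i t x) := h _ (by rw [hblk])
    have h4 : β (id i t y) = β' (id i t y) := h _ (by rw [hblk])
    rw [hF]
    simp only [h3, h4]
  have hσe : ∀ t, -σ * e1 i t y = 1 ∨ -σ * e1 i t y = -1 := by
    intro t
    rcases hσ with rfl | rfl <;> rcases he1 i t y with h | h <;> rw [h] <;> norm_num
  have h3 : ∀ t, av (F t) =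
      ((mm u (if id i t x = id i t y then σ * (e1 i t x * e1 i t y) else 0) : ℝ) : ℂ) := by
    intro t
    rw [hF]
    by_cases hxy : id i t x = id i t y
    · simp only [hxy, if_true]
      rw [av_coord (K := ℂ) (id i t y) (fun b =>
        Complex.exp (((sg b * e1 i t x / u : ℝ) : ℂ) * Complex.I) *
          Complex.exp (((sg b * (-σ * e1 i t y) / u : ℝ) : ℂ) * Complex.I))]
      simp only [← Complex.exp_add, ← add_mul, ← Complex.ofReal_add]
      have h4 : ∀ z : ℝ, (Complex.exp ((z : ℂ) * Complex.I) +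
          Complex.exp (((-z : ℝ) : ℂ) * Complex.I)) / 2 = ((Real.cos z : ℝ) : ℂ) := by
        intro z
        rw [Complex.ofReal_cos, Complex.cos]
        push_cast
        rfl
      have h5 : sg false * e1 i t x / u + sg false * (-σ * e1 i t y) / u =
          -(sg true * e1 i t x / u + sg true * (-σ * e1 i t y) / u) := by
        simp only [sg_true, sg_false]
        ring
      rw [h5, h4]
      congr 1
      have h6 : sg true * e1 i t x / u + sg true * (-σ * e1 i t y) / u =
          e1 i t x / u - (σ * e1 i t y) / u := by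
        simp only [sg_true]
        ring
      have h7 : σ * e1 i t y = 1 ∨ σ * e1 i t y = -1 := by
        rcases hσ with rfl | rfl <;> rcases he1 i t y with h | h <;> rw [h] <;> norm_num
      rw [h6, cos_mm (he1 i t x) h7]
      congr 1
      ring
    · simp only [if_neg hxy]
      rw [av_coord_two hxy (fun b =>
        Complex.exp (((sg b * e1 i t x / u : ℝ) : ℂ) * Complex.I)) (fun b =>
          Complex.exp (((sg b * (-σ * e1 i t y) / u : ℝ) : ℂ) * Complex.I)),
        exp_pm (he1 i t x), exp_pm (hσe t)]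
      unfold mm
      rw [if_pos rfl]
      push_cast
      ring
  rw [funext h1, ← av_re, h2, prod_congr rfl (fun t _ => h3 t), ← Complex.ofReal_prod,
    Complex.ofReal_re]

theorem Cf_eq (blk : ι → D × T) (hblk : ∀ i t x, blk (id i t x) = (i, t))
    (he1 : ∀ i t x, e1 i t x = 1 ∨ e1 i t x = -1) (i : D) (x y : P) :
    Cf id e1 u i x y =
      (∏ t, mm u (if id i t x = id i t y then e1 i t x * e1 i t y else 0) -
        ∏ t, mm u (if id i t x = id i t y then -(e1 i t x * e1 i t y) else 0)) / 2 := by
  have h1 := av_cos id e1 u blk hblk he1 i x y 1 (Or.inl rfl)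
  have h2 := av_cos id e1 u blk hblk he1 i x y (-1) (Or.inr rfl)
  simp only [one_mul] at h1
  simp only [neg_mul, one_mul] at h2
  rw [← h1, ← h2, ← av_sub]
  unfold Cf
  have h3 : ∀ β : ι → Bool, Real.sin (Gs id e1 β i x / u) * Real.sin (Gs id e1 β i y / u) =
      (1 / 2) * (Real.cos (Gs id e1 β i x / u - Gs id e1 β i y / u) -
        Real.cos (Gs id e1 β i x / u - -(Gs id e1 β i y / u))) := by
    intro β
    rw [sub_neg_eq_add, Real.cos_sub, Real.cos_add]
    ring
  rw [funext h3, av_const_mul]
  ring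

theorem prod_sub_le {T : Type*} (s : Finset T) (a b : T → ℝ) (ha : ∀ t, |a t| ≤ 1)
    (hb : ∀ t, |b t| ≤ 1) : |∏ t ∈ s, a t - ∏ t ∈ s, b t| ≤ ∑ t ∈ s, |a t - b t| := by
  classical
  induction s using Finset.induction_on with
  | empty => simp
  | insert t s ht ih =>
    rw [prod_insert ht, prod_insert ht, sum_insert ht]
    have h1 : a t * ∏ t ∈ s, a t - b t * ∏ t ∈ s, b t =
        (a t - b t) * ∏ t ∈ s, a t + b t * (∏ t ∈ s, a t - ∏ t ∈ s, b t) := by ring
    have h2 : |∏ t ∈ s, a t| ≤ 1 := by
      rw [abs_prod]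
      exact prod_le_one (fun _ _ => abs_nonneg _) (fun t _ => ha t)
    rw [h1]
    refine (abs_add_le _ _).trans ?_
    rw [abs_mul, abs_mul]
    have h3 : |a t - b t| * |∏ t ∈ s, a t| ≤ |a t - b t| * 1 :=
      mul_le_mul_of_nonneg_left h2 (abs_nonneg _)
    have h4 : |b t| * |∏ t ∈ s, a t - ∏ t ∈ s, b t| ≤ 1 * |∏ t ∈ s, a t - ∏ t ∈ s, b t| :=
      mul_le_mul_of_nonneg_right (hb t) (abs_nonneg _)
    linarith

theorem abs_mm_le (u q : ℝ) : |mm u q| ≤ 1 := by
  unfold mm
  split_ifs
  · rw [abs_pow]
    exact pow_le_one₀ (abs_nonneg _) (Real.abs_cos_le_one _)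
  · simp
  · exact Real.abs_cos_le_one _

theorem abs_Cf_le (blk : ι → D × T) (hblk : ∀ i t x, blk (id i t x) = (i, t))
    (he1 : ∀ i t x, e1 i t x = 1 ∨ e1 i t x = -1) (hu : 0 < u) (i : D) (x y : P) :
    |Cf id e1 u i x y| ≤ ((univ.filter fun t => id i t x = id i t y).card : ℝ) / u ^ 2 := by
  rw [Cf_eq id e1 u blk hblk he1 i x y, abs_div, abs_two, div_le_iff₀ (by norm_num)]
  refine (prod_sub_le _ _ _ (fun t => abs_mm_le _ _) (fun t => abs_mm_le _ _)).trans ?_
  have h1 : ∀ t, |mm u (if id i t x = id i t y then e1 i t x * e1 i t y else 0) -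
      mm u (if id i t x = id i t y then -(e1 i t x * e1 i t y) else 0)| ≤
      if id i t x = id i t y then 2 / u ^ 2 else 0 := by
    intro t
    have hcos : |1 - Real.cos (2 / u)| ≤ 2 / u ^ 2 := by
      rw [abs_of_nonneg (by linarith [Real.cos_le_one (2 / u)])]
      have := Real.one_sub_sq_div_two_le_cos (x := 2 / u)
      have h2 : (2 / u) ^ 2 / 2 = 2 / u ^ 2 := by
        field_simp
      linarith
    by_cases hxy : id i t x = id i t y
    · simp only [if_pos hxy]
      rcases he1 i t x with h | h <;> rcases he1 i t y with h' | h' <;> rw [h, h'] <;>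
        unfold mm <;> norm_num
      · exact hcos
      · rw [abs_sub_comm]
        exact hcos
      · rw [abs_sub_comm]
        exact hcos
      · exact hcos
    · simp only [if_neg hxy, sub_self, abs_zero]
      exact le_rfl
  refine (sum_le_sum (fun t _ => h1 t)).trans (le_of_eq ?_)
  rw [← sum_filter, sum_const, nsmul_eq_mul]
  ring

theorem rz_nonneg (he0 : ∀ i x, e0 i x = 1 ∨ e0 i x = -1) (β : ι → Bool) (x : P) :
    0 ≤ rz id e0 e1 u β x := by
  refine prod_nonneg (fun i _ => ?_)
  have h1 := Real.neg_one_le_sin (Gs id e1 β i x / u)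
  have h2 := Real.sin_le_one (Gs id e1 β i x / u)
  rcases he0 i x with h | h <;> rw [h] <;> linarith

theorem Gs_congr (blk : ι → D × T) (hblk : ∀ i t x, blk (id i t x) = (i, t)) (i : D) (x : P)
    (β β' : ι → Bool) (h : ∀ j, (blk j).1 = i → β j = β' j) :
    Gs id e1 β i x = Gs id e1 β' i x := by
  unfold Gs
  refine sum_congr rfl (fun t _ => ?_)
  rw [h (id i t x) (by rw [hblk])]

theorem av_rz (blk : ι → D × T) (hblk : ∀ i t x, blk (id i t x) = (i, t)) (x : P) :
    av (fun β : ι → Bool => rz id e0 e1 u β x) = 1 := by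
  unfold rz
  rw [av_prod_of_blk (fun j => (blk j).1)
    (fun i β => 1 + (1 / 2) * (e0 i x * Real.sin (Gs id e1 β i x / u)))]
  · refine prod_eq_one (fun i _ => ?_)
    have h1 : (fun β : ι → Bool => 1 + (1 / 2) * (e0 i x * Real.sin (Gs id e1 β i x / u))) =
        fun β => 1 + (1 / 2 * e0 i x) * Real.sin (Gs id e1 β i x / u) := by
      funext β
      ring
    rw [h1, av_add, av_const, av_const_mul, av_sin id e1 u blk hblk]
    ring
  · intro i β β' h
    rw [Gs_congr id e1 blk hblk i x β β' h]

theorem av_rz_mul (blk : ι → D × T) (hblk : ∀ i t x, blk (id i t x) = (i, t)) (x y : P) :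
    av (fun β : ι → Bool => rz id e0 e1 u β x * rz id e0 e1 u β y) =
      ∏ i, (1 + (1 / 4) * (e0 i x * e0 i y * Cf id e1 u i x y)) := by
  unfold rz
  simp only [← prod_mul_distrib]
  rw [av_prod_of_blk (fun j => (blk j).1)
    (fun i β => (1 + (1 / 2) * (e0 i x * Real.sin (Gs id e1 β i x / u))) *
      (1 + (1 / 2) * (e0 i y * Real.sin (Gs id e1 β i y / u))))]
  · refine prod_congr rfl (fun i _ => ?_)
    have h1 : (fun β : ι → Bool => (1 + (1 / 2) * (e0 i x * Real.sin (Gs id e1 β i x / u))) *
        (1 + (1 / 2) * (e0 i y * Real.sin (Gs id e1 β i y / u)))) =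
        fun β => (1 + (1 / 2 * e0 i x) * Real.sin (Gs id e1 β i x / u)) +
          ((1 / 2 * e0 i y) * Real.sin (Gs id e1 β i y / u) + (1 / 4 * (e0 i x * e0 i y)) *
            (Real.sin (Gs id e1 β i x / u) * Real.sin (Gs id e1 β i y / u))) := by
      funext β
      ring
    rw [h1, av_add, av_add, av_add, av_const, av_const_mul, av_const_mul, av_const_mul,
      av_sin id e1 u blk hblk, av_sin id e1 u blk hblk]
    unfold Cf
    ring
  · intro i β β' h
    rw [Gs_congr id e1 blk hblk i x β β' h, Gs_congr id e1 blk hblk i y β β' h]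

theorem av_sg_rz (blk : ι → D × T) (hblk : ∀ i t x, blk (id i t x) = (i, t))
    (he1 : ∀ i t x, e1 i t x = 1 ∨ e1 i t x = -1) (R : ι) (x : P) :
    av (fun β : ι → Bool => sg (β R) * rz id e0 e1 u β x) =
      if id (blk R).1 (blk R).2 x = R then
        (1 / 2) * (e0 (blk R).1 x * e1 (blk R).1 (blk R).2 x) *
          (Real.sin (1 / u) * Real.cos (1 / u) ^ (Fintype.card T - 1))
      else 0 := by
  set i₀ := (blk R).1 with hi₀
  set t₀ := (blk R).2 with ht₀
  set F : D → (ι → Bool) → ℝ := fun i β => (if i = i₀ then sg (β R) else 1) *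
    (1 + (1 / 2) * (e0 i x * Real.sin (Gs id e1 β i x / u))) with hF
  have h1 : ∀ β : ι → Bool, sg (β R) * rz id e0 e1 u β x = ∏ i, F i β := by
    intro β
    rw [hF, prod_mul_distrib, Finset.prod_ite_eq' univ i₀, if_pos (mem_univ _)]
    rfl
  have h2 : av (fun β => ∏ i, F i β) = ∏ i, av (F i) := by
    refine av_prod_of_blk (fun j => (blk j).1) F ?_
    intro i β β' h
    rw [hF]
    simp only
    rw [Gs_congr id e1 blk hblk i x β β' h]
    by_cases hi : i = i₀
    · rw [if_pos hi, if_pos hi, h R (by rw [hi])]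
    · rw [if_neg hi, if_neg hi]
  have h3 : ∀ i, i ≠ i₀ → av (F i) = 1 := by
    intro i hi
    rw [hF]
    simp only [if_neg hi, one_mul]
    have h4 : (fun β : ι → Bool => 1 + (1 / 2) * (e0 i x * Real.sin (Gs id e1 β i x / u))) =
        fun β => 1 + (1 / 2 * e0 i x) * Real.sin (Gs id e1 β i x / u) := by
      funext β
      ring
    rw [h4, av_add, av_const, av_const_mul, av_sin id e1 u blk hblk]
    ring
  have h4 : av (fun β : ι → Bool => sg (β R)) = 0 := by
    rw [av_coord R sg]
    simp
  have h5 : av (F i₀) = (1 / 2 * e0 i₀ x) *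
      av (fun β : ι → Bool => sg (β R) * Real.sin (Gs id e1 β i₀ x / u)) := by
    rw [← av_const_mul]
    have h6 : F i₀ = fun β => sg (β R) + (1 / 2 * e0 i₀ x) *
        (sg (β R) * Real.sin (Gs id e1 β i₀ x / u)) := by
      funext β
      rw [hF]
      simp only [if_true]
      ring
    rw [h6, av_add, h4, zero_add]
  rw [funext h1, h2, Finset.prod_eq_single i₀ (fun i _ hi => h3 i hi)
    (fun h => absurd (mem_univ _) h), h5]
  by_cases hR : id i₀ t₀ x = R
  · rw [if_pos hR]
    have h6 := av_sg_sin id e1 u blk hblk he1 i₀ t₀ x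
    rw [hR] at h6
    rw [h6]
    ring
  · rw [if_neg hR]
    have h6 : ∀ β : ι → Bool, Gs id e1 (flipE R β) i₀ x = Gs id e1 β i₀ x := by
      intro β
      unfold Gs
      refine sum_congr rfl (fun t _ => ?_)
      rw [flipE_ne]
      intro h7
      by_cases ht : t = t₀
      · rw [ht] at h7
        exact hR h7
      · have h8 : (blk (id i₀ t x)).2 = t := by rw [hblk]
        rw [h7] at h8
        exact ht h8.symm
    rw [av_coord_mul R sg (fun β => Real.sin (Gs id e1 β i₀ x / u)) (fun β => by rw [h6])]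
    simp

end B

end Pool.Agent.Helper80.SB
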